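import Pool.Agent.Helper454.Kauf.Defs

set_option autoImplicit false

namespace Pool.Agent.R811.Plat

open Pool.Agent.Helper454.Kauf
open Pool.Agent.Helper454.Kauf.Piece (birth death pos neg index ins)

theorem width_append (x y : Word) (n : ℕ) : width (x ++ y) n = (width x n).bind (width y) := by
  induction x generalizing n with
  | nil => rfl
  | cons p x ih =>
    simp only [List.cons_append, width]
    rcases p.width n with _ | k
    · rfl
    · exact ih k

theorem width_append_some {x y : Word} {n k l : ℕ} (hx : width x n = some k)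
    (hy : width y k = some l) : width (x ++ y) n = some l := by
  rw [width_append, hx]
  exact hy

/-- The words `w` and `w'` can be exchanged below `n` strands. -/
def IsoAt (n : ℕ) (w w' : Word) : Prop :=
  ∃ k, width w n = some k ∧ width w' n = some k ∧
    ∀ x y, width x 0 = some n → width y k = some 0 → Isotopic (x ++ w ++ y) (x ++ w' ++ y)

theorem IsoAt.refl {n k : ℕ} {w : Word} (h : width w n = some k) : IsoAt n w w :=
  ⟨k, h, h, fun _ _ _ _ => Relation.EqvGen.refl _⟩

theorem IsoAt.symm {n : ℕ} {w w' : Word} (h : IsoAt n w w') : IsoAt n w' w := by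
  obtain ⟨k, h1, h2, h3⟩ := h
  exact ⟨k, h2, h1, fun x y hx hy => Relation.EqvGen.symm _ _ (h3 x y hx hy)⟩

theorem IsoAt.trans {n : ℕ} {w w' w'' : Word} (h : IsoAt n w w') (h' : IsoAt n w' w'') :
    IsoAt n w w'' := by
  obtain ⟨k, h1, h2, h3⟩ := h
  obtain ⟨k', h1', h2', h3'⟩ := h'
  have : k = k' := by
    rw [h2] at h1'
    exact Option.some.inj h1'
  subst this
  exact ⟨k, h1, h2', fun x y hx hy => Relation.EqvGen.trans _ _ _ (h3 x y hx hy)
    (h3' x y hx hy)⟩

theorem IsoAt.append {n k : ℕ} {u u' v v' : Word} (h : IsoAt n u u') (hu : width u n = some k)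
    (h' : IsoAt k v v') : IsoAt n (u ++ v) (u' ++ v') := by
  obtain ⟨k', h1, h2, h3⟩ := h
  have : k' = k := by
    rw [h1] at hu
    exact Option.some.inj hu
  subst this
  obtain ⟨l, h1', h2', h3'⟩ := h'
  refine ⟨l, width_append_some h1 h1', width_append_some h2 h2', fun x y hx hy => ?_⟩
  have e1 := h3 x (v ++ y) hx (width_append_some h1' hy)
  have e2 := h3' (x ++ u') y (width_append_some hx h2) hy
  rw [← List.append_assoc, ← List.append_assoc]
  have e3 : Isotopic (x ++ (u ++ v) ++ y) (x ++ u' ++ v ++ y) := by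
    simpa [List.append_assoc] using e1
  have e4 : Isotopic (x ++ u' ++ v ++ y) (x ++ (u' ++ v') ++ y) := by
    simpa [List.append_assoc] using e2
  have e5 : Isotopic (x ++ (u ++ v) ++ y) (x ++ (u' ++ v') ++ y) :=
    Relation.EqvGen.trans _ _ _ e3 e4
  simpa [List.append_assoc] using e5

theorem IsoAt.left {n k : ℕ} {u v v' : Word} (hu : width u n = some k)
    (h' : IsoAt k v v') : IsoAt n (u ++ v) (u ++ v') := (IsoAt.refl hu).append hu h'

theorem IsoAt.right {n k l : ℕ} {u u' v : Word} (h : IsoAt n u u') (hu : width u n = some k)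
    (hv : width v k = some l) : IsoAt n (u ++ v) (u' ++ v) := h.append hu (IsoAt.refl hv)

theorem IsoAt.width_eq {n k : ℕ} {u u' : Word} (h : IsoAt n u u') (hu : width u n = some k) :
    width u' n = some k := by
  obtain ⟨k', h1, h2, -⟩ := h
  rw [hu] at h1
  rw [h2, h1]

theorem IsoAt.move {n k : ℕ} {l r : Word} (h : LocalMove l r ∨ FirstMove l r)
    (hl : width l n = some k) (hr : width r n = some k) : IsoAt n l r := by
  refine ⟨k, hl, hr, fun x y hx hy => Relation.EqvGen.rel _ _ (IsoStep.mk x l r y h ?_ ?_)⟩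
  · exact width_append_some (width_append_some hx hl) hy
  · exact width_append_some (width_append_some hx hr) hy

/-- The crossings: `cr true i = pos i`, `cr false i = neg i`. -/
def cr (s : Bool) (i : ℕ) : Piece := if s then pos i else neg i

theorem cr_index (s : Bool) (i : ℕ) : (cr s i).index = i := by cases s <;> rfl
theorem cr_ins (s : Bool) (i : ℕ) : (cr s i).ins = 2 := by cases s <;> rfl
theorem cr_outs (s : Bool) (i : ℕ) : (cr s i).outs = 2 := by cases s <;> rfl
theorem cr_width {s : Bool} {i n : ℕ} (h : i + 2 ≤ n) : (cr s i).width n = some n := by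
  cases s <;> simp [cr, Piece.width, h]

theorem width_cons {p : Piece} {w : Word} {n k l : ℕ} (hp : p.width n = some k)
    (hw : width w k = some l) : width (p :: w) n = some l := by
  rw [width, hp]
  exact hw

theorem width_cr {s : Bool} {i n : ℕ} (h : i + 2 ≤ n) : width [cr s i] n = some n :=
  width_cons (cr_width h) rfl

theorem width_replicate {s : Bool} {i n : ℕ} (h : i + 2 ≤ n) (A : ℕ) :
    width (List.replicate A (cr s i)) n = some n := by
  induction A with
  | zero => rfl
  | succ A ih => exact width_cons (cr_width h) ih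

theorem moved_index (q : Piece) : q.moved q.index = q := by cases q <;> rfl

/-- A crossing can be moved above pieces to its right. -/
theorem commute {s : Bool} {i : ℕ} {w : Word} (hw : ∀ q ∈ w, i + 2 ≤ q.index) {n k : ℕ}
    (hn : i + 2 ≤ n) (hk : width w n = some k) :
    i + 2 ≤ k ∧ IsoAt n (w ++ [cr s i]) ([cr s i] ++ w) := by
  induction w generalizing n with
  | nil =>
    simp only [width, Option.some.injEq] at hk
    subst hk
    exact ⟨hn, IsoAt.refl (width_cr hn)⟩
  | cons q w ih =>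
    rw [width] at hk
    obtain ⟨n₁, h1, h2⟩ := Option.bind_eq_some_iff.1 hk
    have hq : i + 2 ≤ q.index := hw q (by simp)
    have hn₁ : i + 2 ≤ n₁ := by
      cases q <;> simp only [Piece.width, Piece.index] at h1 hq <;> split_ifs at h1 <;>
        simp only [Option.some.injEq] at h1 <;> omega
    obtain ⟨h3, h4⟩ := ih (fun r hr => hw r (by simp [hr])) hn₁ h2
    refine ⟨h3, ?_⟩
    have hq1 : width [q] n = some n₁ := width_cons h1 rfl
    have e1 : IsoAt n ([q] ++ (w ++ [cr s i])) ([q] ++ ([cr s i] ++ w)) := IsoAt.left hq1 h4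
    have e2 : IsoAt n [cr s i, q] [q, cr s i] := by
      have := LocalMove.exchange (cr s i) q (by rw [cr_index, cr_ins]; exact hq)
      rw [cr_outs, cr_ins, Nat.add_sub_cancel, moved_index] at this
      exact IsoAt.move (Or.inl this) (width_cons (cr_width hn) hq1)
        (width_cons h1 (width_cr hn₁))
    have e3 : IsoAt n ([q, cr s i] ++ w) ([cr s i, q] ++ w) :=
      e2.symm.right (k := n₁) (width_cons h1 (width_cr hn₁)) h2
    have e4 : (q :: w) ++ [cr s i] = [q] ++ (w ++ [cr s i]) := by simp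
    have e5 : [q] ++ ([cr s i] ++ w) = [q, cr s i] ++ w := by simp
    rw [e4]
    rw [e5] at e1
    exact e1.trans e3

theorem commute_replicate {s : Bool} {i : ℕ} {w : Word} (hw : ∀ q ∈ w, i + 2 ≤ q.index) {n k : ℕ}
    (hn : i + 2 ≤ n) (hk : width w n = some k) (A : ℕ) :
    IsoAt n (w ++ List.replicate A (cr s i)) (List.replicate A (cr s i) ++ w) := by
  induction A with
  | zero =>
    simpa using IsoAt.refl hk
  | succ A ih =>
    obtain ⟨h1, h2⟩ := commute (s := s) hw hn hk
    have e1 : IsoAt n (w ++ [cr s i] ++ List.replicate A (cr s i))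
        ([cr s i] ++ w ++ List.replicate A (cr s i)) :=
      h2.right (width_append_some hk (width_cr h1)) (width_replicate h1 A)
    have e2 : IsoAt n ([cr s i] ++ (w ++ List.replicate A (cr s i)))
        ([cr s i] ++ (List.replicate A (cr s i) ++ w)) := IsoAt.left (width_cr hn) ih
    have e3 : w ++ List.replicate (A + 1) (cr s i) = w ++ [cr s i] ++ List.replicate A (cr s i) := by
      rw [List.replicate_succ]
      simp
    have e4 : List.replicate (A + 1) (cr s i) ++ w =
        [cr s i] ++ (List.replicate A (cr s i) ++ w) := by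
      rw [List.replicate_succ]
      simp
    rw [e3, e4]
    rw [List.append_assoc [cr s i]] at e1
    exact e1.trans e2

/-! ### The corner -/

theorem cancel (s : Bool) (i : ℕ) {n : ℕ} (h : i + 2 ≤ n) : IsoAt n [cr s i, cr (!s) i] [] := by
  have h1 : width [cr s i, cr (!s) i] n = some n := width_cons (cr_width h) (width_cr h)
  cases s
  · exact IsoAt.move (Or.inl (LocalMove.second₂ i)) h1 rfl
  · exact IsoAt.move (Or.inl (LocalMove.second₁ i)) h1 rfl

theorem third_iso (i : ℕ) {n : ℕ} (h : i + 3 ≤ n) :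
    IsoAt n [pos i, pos (i + 1), pos i] [pos (i + 1), pos i, pos (i + 1)] := by
  have h1 : i + 2 ≤ n := by omega
  have h2 : i + 1 + 2 ≤ n := by omega
  refine IsoAt.move (k := n) (Or.inl (LocalMove.third i)) ?_ ?_ <;>
    simp [width, Piece.width, h1, h2]

/-- `σ₀⁻¹ σ₁ σ₀ = σ₁ σ₀ σ₁⁻¹` and its mirror image. -/
theorem conj_iso (s : Bool) {n : ℕ} (h : 3 ≤ n) :
    IsoAt n [cr (!s) 0, cr s 1, cr s 0] [cr s 1, cr s 0, cr (!s) 1] := by
  have h0 : 0 + 2 ≤ n := by omega
  have h1 : 1 + 2 ≤ n := by omega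
  have W : ∀ (b : Bool) (i : ℕ) (w : Word), i + 2 ≤ n → width w n = some n →
      width (cr b i :: w) n = some n := fun b i w hi hw => width_cons (cr_width hi) hw
  cases s
  · -- σ₀ σ₁⁻¹ σ₀⁻¹ = σ₁⁻¹ σ₀⁻¹ σ₁
    have a1 : IsoAt n ([cr false 1, cr false 0, cr true 1] ++ [])
        ([cr false 1, cr false 0, cr true 1] ++ [cr true 0, cr false 0]) :=
      IsoAt.left (W _ _ _ h1 (W _ _ _ h0 (W _ _ _ h1 rfl))) (cancel true 0 h0).symm
    have a2 : IsoAt n ([cr false 1, cr false 0, cr true 1, cr true 0] ++ ([] ++ [cr false 0]))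
        ([cr false 1, cr false 0, cr true 1, cr true 0] ++
          ([cr true 1, cr false 1] ++ [cr false 0])) :=
      IsoAt.left (W _ _ _ h1 (W _ _ _ h0 (W _ _ _ h1 (W _ _ _ h0 rfl))))
        ((cancel true 1 h1).symm.right rfl (W _ _ _ h0 rfl))
    have a3 : IsoAt n ([cr false 1, cr false 0] ++ ([pos 1, pos 0, pos 1] ++
        [cr false 1, cr false 0])) ([cr false 1, cr false 0] ++ ([pos 0, pos 1, pos 0] ++
        [cr false 1, cr false 0])) :=
      IsoAt.left (W _ _ _ h1 (W _ _ _ h0 rfl)) ((third_iso 0 h).symm.right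
        (W true 1 _ h1 (W true 0 _ h0 (W true 1 _ h1 rfl))) (W _ _ _ h1 (W _ _ _ h0 rfl)))
    have a4 : IsoAt n ([cr false 1] ++ ([cr false 0, cr true 0] ++
        [cr true 1, cr true 0, cr false 1, cr false 0])) ([cr false 1] ++ ([] ++
        [cr true 1, cr true 0, cr false 1, cr false 0])) :=
      IsoAt.left (W _ _ _ h1 rfl) ((cancel false 0 h0).right (W _ _ _ h0 (W _ _ _ h0 rfl))
        (W _ _ _ h1 (W _ _ _ h0 (W _ _ _ h1 (W _ _ _ h0 rfl)))))
    have a5 : IsoAt n ([cr false 1, cr true 1] ++ [cr true 0, cr false 1, cr false 0])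
        ([] ++ [cr true 0, cr false 1, cr false 0]) :=
      (cancel false 1 h1).right (W _ _ _ h1 (W _ _ _ h1 rfl))
        (W _ _ _ h0 (W _ _ _ h1 (W _ _ _ h0 rfl)))
    exact ((((a1.trans a2).trans a3).trans a4).trans a5).symm
  · have a1 : IsoAt n ([cr false 0, cr true 1, cr true 0] ++ [])
        ([cr false 0, cr true 1, cr true 0] ++ [cr true 1, cr false 1]) :=
      IsoAt.left (W _ _ _ h0 (W _ _ _ h1 (W _ _ _ h0 rfl))) (cancel true 1 h1).symm
    have a2 : IsoAt n ([cr false 0] ++ ([pos 1, pos 0, pos 1] ++ [cr false 1]))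
        ([cr false 0] ++ ([pos 0, pos 1, pos 0] ++ [cr false 1])) :=
      IsoAt.left (W _ _ _ h0 rfl) ((third_iso 0 h).symm.right
        (W true 1 _ h1 (W true 0 _ h0 (W true 1 _ h1 rfl))) (W _ _ _ h1 rfl))
    have a3 : IsoAt n ([cr false 0, cr true 0] ++ [cr true 1, cr true 0, cr false 1])
        ([] ++ [cr true 1, cr true 0, cr false 1]) :=
      (cancel false 0 h0).right (W _ _ _ h0 (W _ _ _ h0 rfl))
        (W _ _ _ h1 (W _ _ _ h0 (W _ _ _ h1 rfl)))
    exact (a1.trans a2).trans a3

theorem conj_pow (s : Bool) {n : ℕ} (h : 3 ≤ n) (k : ℕ) :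
    IsoAt n ([cr (!s) 0] ++ List.replicate k (cr s 1) ++ [cr s 0])
      ([cr s 1] ++ List.replicate k (cr s 0) ++ [cr (!s) 1]) := by
  have h0 : 0 + 2 ≤ n := by omega
  have h1 : 1 + 2 ≤ n := by omega
  have W : ∀ (b : Bool) (i : ℕ) (w : Word), i + 2 ≤ n → width w n = some n →
      width (cr b i :: w) n = some n := fun b i w hi hw => width_cons (cr_width hi) hw
  induction k with
  | zero =>
    have e1 : IsoAt n [cr (!s) 0, cr s 0] [] := by
      have := cancel (!s) 0 h0
      rwa [Bool.not_not] at this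
    simpa using e1.trans (cancel s 1 h1).symm
  | succ k ih =>
    -- insert a pair of crossings
    have a1 : IsoAt n (([cr (!s) 0] ++ List.replicate k (cr s 1)) ++ ([] ++ [cr s 1, cr s 0]))
        (([cr (!s) 0] ++ List.replicate k (cr s 1)) ++ ([cr s 0, cr (!s) 0] ++ [cr s 1, cr s 0])) :=
      IsoAt.left (W _ _ _ h0 (width_replicate h1 k)) ((cancel s 0 h0).symm.right rfl
        (W _ _ _ h1 (W _ _ _ h0 rfl)))
    have a2 : IsoAt n (([cr (!s) 0] ++ List.replicate k (cr s 1) ++ [cr s 0]) ++
        [cr (!s) 0, cr s 1, cr s 0]) (([cr s 1] ++ List.replicate k (cr s 0) ++ [cr (!s) 1]) ++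
        [cr s 1, cr s 0, cr (!s) 1]) :=
      ih.append (width_append_some (W _ _ _ h0 (width_replicate h1 k)) (width_cr h0))
        (conj_iso s h)
    have e1 : IsoAt n [cr (!s) 1, cr s 1] [] := by
      have := cancel (!s) 1 h1
      rwa [Bool.not_not] at this
    have a3 : IsoAt n (([cr s 1] ++ List.replicate k (cr s 0)) ++ ([cr (!s) 1, cr s 1] ++
        [cr s 0, cr (!s) 1])) (([cr s 1] ++ List.replicate k (cr s 0)) ++ ([] ++
        [cr s 0, cr (!s) 1])) :=
      IsoAt.left (W _ _ _ h1 (width_replicate h0 k)) (e1.right (W _ _ _ h1 (W _ _ _ h1 rfl))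
        (W _ _ _ h0 (W _ _ _ h1 rfl)))
    have e2 : ∀ p : Piece, List.replicate (k + 1) p = List.replicate k p ++ [p] := fun p =>
      List.replicate_succ'
    rw [e2, e2]
    simp only [List.append_assoc, List.cons_append, List.nil_append] at a1 a2 a3 ⊢
    exact (a1.trans a2).trans a3

/-- The reduction at the corner. -/
theorem corner (s : Bool) (k : ℕ) :
    IsoAt 0 ([birth 0, birth 2] ++ List.replicate (k + 1) (cr s 1) ++ [cr s 0])
      ([birth 0, birth 1] ++ List.replicate k (cr s 0) ++ [cr (!s) 1]) := by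
  have h0 : 0 + 2 ≤ 4 := by omega
  have h1 : 1 + 2 ≤ 4 := by omega
  have W : ∀ (b : Bool) (i : ℕ) (w : Word), i + 2 ≤ 4 → width w 4 = some 4 →
      width (cr b i :: w) 4 = some 4 := fun b i w hi hw => width_cons (cr_width hi) hw
  have b1 : IsoAt 0 [birth 0, birth 2] [birth 0, birth 0] :=
    IsoAt.move (k := 4) (Or.inl (LocalMove.exchange (birth 0) (birth 0) (by simp [index, ins])))
      rfl rfl
  have b2 : IsoAt 2 [birth 0, cr s 1] [birth 1, cr (!s) 0] := by
    cases s
    · exact IsoAt.move (k := 4) (Or.inl (LocalMove.slideBirth₂ 0)) rfl rfl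
    · exact IsoAt.move (k := 4) (Or.inl (LocalMove.slideBirth₁ 0)) rfl rfl
  have b3 : IsoAt 2 [birth 1, cr s 1] [birth 1] := by
    cases s
    · exact IsoAt.move (k := 4) (Or.inr (FirstMove.birthNeg 1)) rfl rfl
    · exact IsoAt.move (k := 4) (Or.inr (FirstMove.birthPos 1)) rfl rfl
  have hw1 : width (List.replicate k (cr s 1) ++ [cr s 0]) 4 = some 4 :=
    width_append_some (width_replicate h1 k) (width_cr h0)
  have hw2 : width (List.replicate k (cr s 0) ++ [cr (!s) 1]) 4 = some 4 :=
    width_append_some (width_replicate h0 k) (width_cr h1)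
  have a1 : IsoAt 0 ([birth 0, birth 2] ++ ([cr s 1] ++ (List.replicate k (cr s 1) ++ [cr s 0])))
      ([birth 0, birth 0] ++ ([cr s 1] ++ (List.replicate k (cr s 1) ++ [cr s 0]))) :=
    b1.right rfl (W _ _ _ h1 hw1)
  have a2 : IsoAt 0 ([birth 0] ++ ([birth 0, cr s 1] ++ (List.replicate k (cr s 1) ++ [cr s 0])))
      ([birth 0] ++ ([birth 1, cr (!s) 0] ++ (List.replicate k (cr s 1) ++ [cr s 0]))) :=
    IsoAt.left (k := 2) rfl (b2.right (k := 4) (by cases s <;> rfl) hw1)
  have a3 : IsoAt 0 ([birth 0, birth 1] ++ ([cr (!s) 0] ++ List.replicate k (cr s 1) ++ [cr s 0]))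
      ([birth 0, birth 1] ++ ([cr s 1] ++ List.replicate k (cr s 0) ++ [cr (!s) 1])) :=
    IsoAt.left (k := 4) rfl (conj_pow s (by omega) k)
  have a4 : IsoAt 0 ([birth 0] ++ ([birth 1, cr s 1] ++ (List.replicate k (cr s 0) ++
      [cr (!s) 1]))) ([birth 0] ++ ([birth 1] ++ (List.replicate k (cr s 0) ++ [cr (!s) 1]))) :=
    IsoAt.left (k := 2) rfl (b3.right (k := 4) (by cases s <;> rfl) hw2)
  rw [List.replicate_succ]
  simp only [List.cons_append, List.nil_append] at a1 a2 a3 a4 ⊢
  exact ((a1.trans a2).trans a3).trans a4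

end Pool.Agent.R811.Plat
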